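import Pool.Agent.Q289.OC.Basic

/-!
# All pairs from the good pairs
-/

set_option autoImplicit false

namespace Q137.OC

open Finset Q289.OC

theorem triangle (hO : OctStm) {n : ℕ} {W : Type} [NormedAddCommGroup W] [InnerProductSpace ℝ W]
    {ρ : Equiv.Perm (Fin n) →* (W →ₗ[ℝ] W)} (hρ : Uni ρ) (v : W) (x y z : Fin n) :
    DD ρ v x z ≤ 2 * (DD ρ v x y + DD ρ v y z) := by
  have n1 := hρ.DD_nonneg v x y
  have n2 := hρ.DD_nonneg v y z
  have n3 := hρ.DD_nonneg v x z
  by_cases hxz : x = z
  · rw [hxz, DD_self]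
    rw [hxz] at n1
    positivity
  by_cases hxy : x = y
  · rw [hxy, DD_self] at *
    linarith
  by_cases hyz : y = z
  · rw [← hyz, DD_self] at *
    linarith
  obtain ⟨b, hb⟩ : ∃ b : Fin n → ℝ, b = fun i => if i = x ∨ i = z then 1 else 0 := ⟨_, rfl⟩
  have hsum : ∀ f : Fin n → ℝ, ∑ i, b i * f i = f x + f z := by
    intro f
    have q1 : ∀ i, b i * f i = (if i = x then f i else 0) + (if i = z then f i else 0) := by
      intro i
      rw [hb]
      by_cases h1 : i = x
      · have h2 : i ≠ z := fun e => hxz (h1 ▸ e)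
        simp only [h1, true_or, if_true, if_neg (h1 ▸ h2 : ¬ x = z), one_mul, add_zero]
      · by_cases h2 : i = z
        · have h3 : ¬ z = x := fun e => hxz e.symm
          simp only [h2, or_true, if_true, if_neg h3, one_mul, zero_add]
        · simp only [h1, h2, or_self, if_false, zero_mul, add_zero]
    rw [Finset.sum_congr rfl fun i _ => q1 i, Finset.sum_add_distrib]
    simp
  have h := hO n W ρ hρ v y b (fun i => by rw [hb]; dsimp only; split_ifs <;> norm_num) (by
    rw [hb]
    have h1 : ¬ (y = x ∨ y = z) := by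
      rintro (e | e)
      · exact hxy e.symm
      · exact hyz e
    simp only [if_neg h1])
  have e1 : ∑ i, b i = 2 := by
    have := hsum fun _ => 1
    simp only [mul_one] at this
    rw [this]; norm_num
  have e2 : ∑ i, ∑ j, b i * b j * DD ρ v i j = 2 * DD ρ v x z := by
    have q1 : ∀ i, ∑ j, b i * b j * DD ρ v i j = b i * (DD ρ v i x + DD ρ v i z) := by
      intro i
      rw [← hsum fun j => DD ρ v i j, Finset.mul_sum]
      exact Finset.sum_congr rfl fun j _ => by ring
    simp only [q1]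
    rw [hsum fun i => DD ρ v i x + DD ρ v i z, DD_self, DD_self, DD_comm v z x]
    ring
  rw [e1, e2, hsum fun i => DD ρ v y i, DD_comm v y x] at h
  linarith

theorem bridgeStm (hO : OctStm) : BridgeStm := by
  intro n W _ _ ρ hρ v h T hT h0 hs hr
  rcases Nat.eq_zero_or_pos n with hn | hn
  · subst hn
    simp
  have hnR : (0 : ℝ) < n := by exact_mod_cast hn
  obtain ⟨g, hg⟩ : ∃ g : Fin n → Fin n → ℝ, g = fun x y =>
    if h x y ≤ 4 * T / n then 1 else 0 := ⟨_, rfl⟩
  have hg' : ∀ x y, (if h x y ≤ 4 * T / n then (1 : ℝ) else 0) = g x y := fun x y => by rw [hg]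
  simp only [hg']
  have g0 : ∀ x y, 0 ≤ g x y := fun x y => by rw [hg]; dsimp only; split_ifs <;> norm_num
  have g1 : ∀ x y, g x y ≤ 1 := fun x y => by rw [hg]; dsimp only; split_ifs <;> norm_num
  have gs : ∀ x y, g x y = g y x := fun x y => by rw [hg]; dsimp only; rw [hs]
  -- few bad points
  have hbad : ∀ x, ∑ y, (1 - g x y) ≤ n / 4 := by
    intro x
    have h1 : ∑ y, (1 - g x y) * (4 * T / n) ≤ ∑ y, h x y := by
      refine Finset.sum_le_sum fun y _ => ?_
      by_cases hy : h x y ≤ 4 * T / n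
      · have : g x y = 1 := by rw [hg]; simp only [if_pos hy]
        rw [this, sub_self, zero_mul]; exact h0 x y
      · have : g x y = 0 := by rw [hg]; simp only [if_neg hy]
        rw [this, sub_zero, one_mul]; exact (not_le.1 hy).le
    rw [← Finset.sum_mul] at h1
    have h2 := h1.trans (hr x)
    have h3 : (∑ y, (1 - g x y)) * 4 ≤ n := by
      rw [← mul_div_assoc, div_le_iff₀ hnR] at h2
      have : (∑ y, (1 - g x y)) * 4 * T ≤ n * T := by linarith
      exact le_of_mul_le_mul_right this hT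
    linarith
  have hmid : ∀ x z, (n : ℝ) / 2 ≤ ∑ y, g x y * g y z := by
    intro x z
    have h1 : ∀ y, 1 - (1 - g x y) - (1 - g z y) ≤ g x y * g y z := by
      intro y
      rw [gs y z]
      nlinarith [mul_nonneg (sub_nonneg.2 (g1 x y)) (sub_nonneg.2 (g1 z y))]
    have h2 : ∑ y : Fin n, (1 - (1 - g x y) - (1 - g z y)) ≤ ∑ y, g x y * g y z :=
      Finset.sum_le_sum fun y _ => h1 y
    rw [Finset.sum_sub_distrib, Finset.sum_sub_distrib] at h2
    have h3 : ∑ _y : Fin n, (1 : ℝ) = n := by simp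
    rw [h3] at h2
    have h4 := hbad x
    have h5 := hbad z
    linarith
  have hpair : ∀ x z, (n : ℝ) / 2 * DD ρ v x z ≤
      2 * ∑ y, g x y * DD ρ v x y + 2 * ∑ y, g y z * DD ρ v y z := by
    intro x z
    calc (n : ℝ) / 2 * DD ρ v x z ≤ (∑ y, g x y * g y z) * DD ρ v x z :=
          mul_le_mul_of_nonneg_right (hmid x z) (hρ.DD_nonneg v x z)
      _ = ∑ y, g x y * g y z * DD ρ v x z := by rw [Finset.sum_mul]
      _ ≤ ∑ y, (2 * (g x y * DD ρ v x y) + 2 * (g y z * DD ρ v y z)) := by
          refine Finset.sum_le_sum fun y _ => ?_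
          have t := triangle hO hρ v x y z
          have n1 := hρ.DD_nonneg v x y
          have n2 := hρ.DD_nonneg v y z
          have a1 : g x y * g y z ≤ g x y := by
            calc g x y * g y z ≤ g x y * 1 := mul_le_mul_of_nonneg_left (g1 y z) (g0 x y)
              _ = g x y := mul_one _
          have a2 : g x y * g y z ≤ g y z := by
            calc g x y * g y z ≤ 1 * g y z := mul_le_mul_of_nonneg_right (g1 x y) (g0 y z)
              _ = g y z := one_mul _
          calc g x y * g y z * DD ρ v x z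
              ≤ g x y * g y z * (2 * (DD ρ v x y + DD ρ v y z)) :=
                mul_le_mul_of_nonneg_left t (mul_nonneg (g0 x y) (g0 y z))
            _ = 2 * (g x y * g y z * DD ρ v x y) + 2 * (g x y * g y z * DD ρ v y z) := by ring
            _ ≤ 2 * (g x y * DD ρ v x y) + 2 * (g y z * DD ρ v y z) := by
                have b1 := mul_le_mul_of_nonneg_right a1 n1
                have b2 := mul_le_mul_of_nonneg_right a2 n2
                linarith
      _ = _ := by rw [Finset.sum_add_distrib, Finset.mul_sum, Finset.mul_sum]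
  have htot : ∑ x, ∑ z, (n : ℝ) / 2 * DD ρ v x z ≤
      ∑ x, ∑ z, (2 * ∑ y, g x y * DD ρ v x y + 2 * ∑ y, g y z * DD ρ v y z) :=
    Finset.sum_le_sum fun x _ => Finset.sum_le_sum fun z _ => hpair x z
  have hl : ∑ x, ∑ z, (n : ℝ) / 2 * DD ρ v x z = (n : ℝ) / 2 * ∑ x, ∑ z, DD ρ v x z := by
    simp only [Finset.mul_sum]
  have hr' : ∑ x, ∑ z, (2 * ∑ y, g x y * DD ρ v x y + 2 * ∑ y, g y z * DD ρ v y z) =
      4 * n * ∑ x, ∑ y, g x y * DD ρ v x y := by
    have e1 : ∑ x : Fin n, ∑ _z : Fin n, 2 * ∑ y, g x y * DD ρ v x y =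
        2 * n * ∑ x, ∑ y, g x y * DD ρ v x y := by
      simp only [Finset.sum_const, Finset.card_univ, Fintype.card_fin, nsmul_eq_mul]
      rw [Finset.mul_sum]
      refine Finset.sum_congr rfl fun x _ => by ring
    have e2 : ∑ _x : Fin n, ∑ z : Fin n, 2 * ∑ y, g y z * DD ρ v y z =
        2 * n * ∑ x, ∑ y, g x y * DD ρ v x y := by
      simp only [Finset.sum_const, Finset.card_univ, Fintype.card_fin, nsmul_eq_mul]
      rw [Finset.sum_comm' (s := univ) (t := fun _ => univ) (t' := univ) (s' := fun _ => univ)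
        (by simp) (f := fun x y => g x y * DD ρ v x y), ← Finset.mul_sum]
      ring
    simp only [Finset.sum_add_distrib]
    rw [e1, e2]
    ring
  rw [hl, hr'] at htot
  have h9 : (n : ℝ) * ∑ x, ∑ z, DD ρ v x z ≤ n * (8 * ∑ x, ∑ y, g x y * DD ρ v x y) := by linarith
  exact le_of_mul_le_mul_left h9 hnR

end Q137.OC
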