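import Pool.Agent.Q289.OC.Basic

/-!
# Elimination of vertices
-/

set_option autoImplicit false

namespace Q137.OC

open Finset Q289.OC

/-- the properties of the reduced matrix -/
structure Red {n : ℕ} (K G : Matrix (Fin n) (Fin n) ℝ) (S : Finset (Fin n))
    (R : Matrix (Fin n) (Fin n) ℝ) : Prop where
  symm : ∀ x y, R x y = R y x
  off : ∀ x ∈ S, ∀ y ∈ S, x ≠ y → R x y ≤ 0
  row : ∀ x ∈ S, 0 < ∑ y ∈ S, R x y
  inv : ∀ x ∈ S, ∀ w ∈ S, ∑ y ∈ S, R x y * G y w = if x = w then 1 else 0
  dir : ∀ (W : Type) [NormedAddCommGroup W] [InnerProductSpace ℝ W]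
        (ρ : Equiv.Perm (Fin n) →* (W →ₗ[ℝ] W)), Uni ρ → ∀ v : W,
        ∑ x ∈ S, ∑ y ∈ S, -R x y * DD ρ v x y ≤ ∑ x, ∑ y, -K x y * DD ρ v x y

theorem red_step (hO : OctStm) {n : ℕ} {K G : Matrix (Fin n) (Fin n) ℝ} {S : Finset (Fin n)}
    {R : Matrix (Fin n) (Fin n) ℝ} (h : Red K G S R) {z : Fin n} (hz : z ∈ S) :
    ∃ R' : Matrix (Fin n) (Fin n) ℝ, Red K G (S.erase z) R' := by
  have hrs := h.row z hz
  have hsplit : ∀ f : Fin n → ℝ, ∑ y ∈ S, f y = f z + ∑ y ∈ S.erase z, f y :=
    fun f => (Finset.add_sum_erase S f hz).symm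
  have hmem : ∀ x ∈ S.erase z, x ∈ S ∧ x ≠ z := fun x hx =>
    ⟨Finset.mem_of_mem_erase hx, Finset.ne_of_mem_erase hx⟩
  have hne : ∑ y ∈ S.erase z, R z y ≤ 0 := Finset.sum_nonpos fun y hy =>
    h.off z hz y (hmem y hy).1 (hmem y hy).2.symm
  have hzz : 0 < R z z := by
    rw [hsplit] at hrs
    linarith
  refine ⟨Matrix.of fun x y => R x y - R x z * R z y / R z z, ?_, ?_, ?_, ?_, ?_⟩
  · intro x y
    simp only [Matrix.of_apply]
    rw [h.symm x y, h.symm x z, h.symm z y]
    ring
  · intro x hx y hy hxy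
    simp only [Matrix.of_apply]
    have h1 := h.off x (hmem x hx).1 y (hmem y hy).1 hxy
    have h2 := h.off x (hmem x hx).1 z hz (hmem x hx).2
    have h3 := h.off z hz y (hmem y hy).1 (hmem y hy).2.symm
    have h4 : 0 ≤ R x z * R z y / R z z := div_nonneg (mul_nonneg_of_nonpos_of_nonpos h2 h3) hzz.le
    linarith
  · intro x hx
    simp only [Matrix.of_apply]
    have h1 := h.row x (hmem x hx).1
    have h2 := h.off x (hmem x hx).1 z hz (hmem x hx).2
    have e1 : ∑ y ∈ S.erase z, (R x y - R x z * R z y / R z z) =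
        ∑ y ∈ S, R x y - R x z / R z z * ∑ y ∈ S, R z y := by
      rw [hsplit, hsplit, Finset.sum_sub_distrib, mul_add, Finset.mul_sum]
      have e2 : ∑ y ∈ S.erase z, R x z * R z y / R z z =
          ∑ y ∈ S.erase z, R x z / R z z * R z y :=
        Finset.sum_congr rfl fun y _ => by ring
      rw [e2, div_mul_cancel₀ _ hzz.ne']
      ring
    rw [e1]
    have h3 : R x z / R z z * ∑ y ∈ S, R z y ≤ 0 :=
      mul_nonpos_of_nonpos_of_nonneg (div_nonpos_of_nonpos_of_nonneg h2 hzz.le) hrs.le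
    linarith
  · intro x hx w hw
    simp only [Matrix.of_apply]
    have h1 := h.inv x (hmem x hx).1 w (hmem w hw).1
    have h2 := h.inv z hz w (hmem w hw).1
    rw [if_neg (hmem w hw).2.symm] at h2
    have e1 : ∑ y ∈ S.erase z, (R x y - R x z * R z y / R z z) * G y w =
        ∑ y ∈ S, R x y * G y w - R x z / R z z * ∑ y ∈ S, R z y * G y w := by
      rw [hsplit, hsplit, mul_add, Finset.mul_sum]
      have e2 : ∑ y ∈ S.erase z, (R x y - R x z * R z y / R z z) * G y w =
          ∑ y ∈ S.erase z, R x y * G y w - ∑ y ∈ S.erase z, R x z / R z z * (R z y * G y w) := by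
        rw [← Finset.sum_sub_distrib]
        exact Finset.sum_congr rfl fun y _ => by ring
      have e3 : R x z / R z z * (R z z * G z w) = R x z * G z w := by
        field_simp
      rw [e2, e3]
      ring
    rw [e1, h1, h2, mul_zero, sub_zero]
  · intro W _ _ ρ hρ v
    refine le_trans ?_ (h.dir W ρ hρ v)
    simp only [Matrix.of_apply]
    have hDz : ∀ x, DD ρ v x x = 0 := DD_self v
    -- right side
    have e1 : ∑ x ∈ S, ∑ y ∈ S, -R x y * DD ρ v x y =
        ∑ x ∈ S.erase z, ∑ y ∈ S.erase z, -R x y * DD ρ v x y +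
          2 * ∑ y ∈ S.erase z, -R z y * DD ρ v z y := by
      rw [hsplit, hsplit]
      have e2 : ∑ x ∈ S.erase z, ∑ y ∈ S, -R x y * DD ρ v x y =
          ∑ x ∈ S.erase z, -R z x * DD ρ v z x +
            ∑ x ∈ S.erase z, ∑ y ∈ S.erase z, -R x y * DD ρ v x y := by
        rw [← Finset.sum_add_distrib]
        refine Finset.sum_congr rfl fun x _ => ?_
        rw [hsplit, h.symm x z, DD_comm v x z]
      rw [e2, hDz]
      ring
    have e3 : ∑ x ∈ S.erase z, ∑ y ∈ S.erase z, -(R x y - R x z * R z y / R z z) * DD ρ v x y =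
        ∑ x ∈ S.erase z, ∑ y ∈ S.erase z, -R x y * DD ρ v x y +
          (∑ x ∈ S.erase z, ∑ y ∈ S.erase z, R z x * R z y * DD ρ v x y) / R z z := by
      rw [Finset.sum_div, ← Finset.sum_add_distrib]
      refine Finset.sum_congr rfl fun x _ => ?_
      rw [Finset.sum_div, ← Finset.sum_add_distrib]
      refine Finset.sum_congr rfl fun y _ => ?_
      rw [h.symm x z]
      ring
    rw [e1, e3]
    refine add_le_add le_rfl ?_
    obtain ⟨b, hb⟩ : ∃ b : Fin n → ℝ, b = fun y => if y ∈ S.erase z then -R z y else 0 := ⟨_, rfl⟩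
    have hb0 : ∀ i, 0 ≤ b i := by
      intro i
      rw [hb]
      dsimp only
      split_ifs with hi
      · have := h.off z hz i (hmem i hi).1 (hmem i hi).2.symm
        linarith
      · exact le_rfl
    have hbz : b z = 0 := by rw [hb]; simp
    have hoct := hO n W ρ hρ v z b hb0 hbz
    have hsum : ∀ f : Fin n → ℝ, ∑ i, b i * f i = ∑ i ∈ S.erase z, -R z i * f i := by
      intro f
      rw [← Finset.sum_filter_add_sum_filter_not univ (fun i => i ∈ S.erase z)]
      have q1 : ∑ i ∈ univ.filter (fun i => ¬ i ∈ S.erase z), b i * f i = 0 := by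
        refine Finset.sum_eq_zero fun i hi => ?_
        rw [hb]
        simp only [Finset.mem_filter, Finset.mem_univ, true_and] at hi
        simp only [if_neg hi, zero_mul]
      have q2 : univ.filter (fun i => i ∈ S.erase z) = S.erase z := by ext i; simp
      rw [q1, add_zero, q2]
      refine Finset.sum_congr rfl fun i hi => ?_
      rw [hb]
      simp only [if_pos hi]
    have hC : ∑ i, b i = ∑ i ∈ S.erase z, -R z i := by
      have := hsum fun _ => 1
      simpa using this
    have hCle : ∑ i, b i ≤ R z z := by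
      rw [hC, Finset.sum_neg_distrib]
      rw [hsplit] at hrs
      linarith
    have hl : ∑ i, ∑ j, b i * b j * DD ρ v i j =
        ∑ x ∈ S.erase z, ∑ y ∈ S.erase z, R z x * R z y * DD ρ v x y := by
      have q1 : ∀ i, ∑ j, b i * b j * DD ρ v i j = b i * ∑ j ∈ S.erase z, -R z j * DD ρ v i j := by
        intro i
        rw [← hsum, Finset.mul_sum]
        exact Finset.sum_congr rfl fun j _ => by ring
      simp only [q1]
      rw [hsum]
      refine Finset.sum_congr rfl fun x _ => ?_
      rw [Finset.mul_sum]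
      exact Finset.sum_congr rfl fun y _ => by ring
    rw [hl, hsum] at hoct
    have hnn : 0 ≤ ∑ y ∈ S.erase z, -R z y * DD ρ v z y := by
      refine Finset.sum_nonneg fun y hy => ?_
      have := h.off z hz y (hmem y hy).1 (hmem y hy).2.symm
      exact mul_nonneg (by linarith) (hρ.DD_nonneg v z y)
    rw [div_le_iff₀ hzz]
    calc ∑ x ∈ S.erase z, ∑ y ∈ S.erase z, R z x * R z y * DD ρ v x y
        ≤ 2 * (∑ i, b i) * ∑ y ∈ S.erase z, -R z y * DD ρ v z y := hoct
      _ ≤ 2 * R z z * ∑ y ∈ S.erase z, -R z y * DD ρ v z y := by gcongr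
      _ = 2 * (∑ y ∈ S.erase z, -R z y * DD ρ v z y) * R z z := by ring

theorem elimStm (hO : OctStm) : ElimStm := by
  intro n K G hK hKG S
  have key : ∀ T : Finset (Fin n), ∃ R : Matrix (Fin n) (Fin n) ℝ, Red K G Tᶜ R := by
    intro T
    induction T using Finset.induction_on with
    | empty =>
      refine ⟨K, hK.symm, fun x _ y _ hxy => hK.off x y hxy, ?_, ?_, ?_⟩
      · intro x _
        simpa using hK.row x
      · intro x _ w _
        have h1 : ∑ y, K x y * G y w = (K * G) x w := (Matrix.mul_apply).symm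
        rw [Finset.compl_empty, h1, hKG, Matrix.one_apply]
      · intro W _ _ ρ _ v
        rw [Finset.compl_empty]
    | insert z T hz ih =>
      obtain ⟨R, hR⟩ := ih
      have e : (insert z T)ᶜ = Tᶜ.erase z := by
        rw [Finset.compl_insert]
      rw [e]
      exact red_step hO hR (Finset.mem_compl.2 hz)
  obtain ⟨R, hR⟩ := key Sᶜ
  rw [compl_compl] at hR
  exact ⟨R, hR.symm, hR.off, hR.row, hR.inv, hR.dir⟩

end Q137.OC
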