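import Pool.Agent.Q289.OC.Basic

/-!
# The inverse of an M-matrix
-/

set_option autoImplicit false

namespace Q137.OC

open Finset Q289.OC

variable {n : ℕ} {K : Matrix (Fin n) (Fin n) ℝ}

/-- minimum principle -/
theorem min_principle (hK : MM K) (u : Fin n → ℝ) (h : ∀ x, 0 ≤ ∑ y, K x y * u y) :
    ∀ x, 0 ≤ u x := by
  intro x0
  haveI : Nonempty (Fin n) := ⟨x0⟩
  obtain ⟨x, hx⟩ := Finite.exists_min u
  refine le_trans ?_ (hx x0)
  by_contra hn
  push Not at hn
  have h1 : ∑ y, K x y * u y = ∑ y, K x y * (u y - u x) + (∑ y, K x y) * u x := by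
    rw [Finset.sum_mul, ← Finset.sum_add_distrib]
    refine Finset.sum_congr rfl fun y _ => ?_
    ring
  have h2 : ∑ y, K x y * (u y - u x) ≤ 0 := by
    refine Finset.sum_nonpos fun y _ => ?_
    by_cases hy : x = y
    · rw [hy]; simp
    · exact mul_nonpos_of_nonpos_of_nonneg (hK.off x y hy) (sub_nonneg.2 (hx y))
  have h3 : (∑ y, K x y) * u x < 0 := mul_neg_of_pos_of_neg (hK.row x) hn
  have h4 := h x
  linarith

theorem posStm : PosStm := by
  intro n K hK
  have hdet : K.det ≠ 0 := by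
    intro h0
    obtain ⟨v, hv0, hv⟩ := Matrix.exists_mulVec_eq_zero_iff.2 h0
    apply hv0
    have e : ∀ x, ∑ y, K x y * v y = 0 := fun x => congrFun hv x
    funext x
    have h1 := min_principle hK v (fun x => (e x).ge) x
    have h2 := min_principle hK (fun y => -v y) (fun x => by
      have : ∑ y, K x y * -v y = -∑ y, K x y * v y := by
        rw [← Finset.sum_neg_distrib]
        exact Finset.sum_congr rfl fun y _ => by ring
      rw [this, e x, neg_zero]) x
    have h3 : v x = 0 := le_antisymm (by linarith) h1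
    rw [h3]; rfl
  have hu : IsUnit K.det := isUnit_iff_ne_zero.2 hdet
  have hKG : K * K⁻¹ = 1 := Matrix.mul_nonsing_inv K hu
  have hGK : K⁻¹ * K = 1 := Matrix.nonsing_inv_mul K hu
  have hnn : ∀ x y, 0 ≤ K⁻¹ x y := by
    intro x y
    refine min_principle hK (fun z => K⁻¹ z y) (fun z => ?_) x
    have : ∑ w, K z w * K⁻¹ w y = (K * K⁻¹) z y := (Matrix.mul_apply).symm
    rw [this, hKG, Matrix.one_apply]
    split_ifs <;> norm_num
  have hKt : K.transpose = K := by
    ext x y
    exact hK.symm y x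
  refine ⟨K⁻¹, hKG, hGK, ?_, hnn, ?_⟩
  · intro x y
    have h1 : (K⁻¹).transpose = K⁻¹ := by rw [Matrix.transpose_nonsing_inv, hKt]
    have h2 := congrFun (congrFun h1 x) y
    rw [Matrix.transpose_apply] at h2
    exact h2.symm
  · intro x
    refine lt_of_le_of_ne (hnn x x) fun h0 => ?_
    have h1 : ∑ w, K x w * K⁻¹ w x = 1 := by
      have : ∑ w, K x w * K⁻¹ w x = (K * K⁻¹) x x := (Matrix.mul_apply).symm
      rw [this, hKG, Matrix.one_apply_eq]
    have h2 : ∑ w, K x w * K⁻¹ w x ≤ 0 := by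
      refine Finset.sum_nonpos fun w _ => ?_
      by_cases hw : x = w
      · rw [← hw, ← h0, mul_zero]
      · exact mul_nonpos_of_nonpos_of_nonneg (hK.off x w hw) (hnn w x)
    linarith

end Q137.OC
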