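import Pool.Agent.Q289.OC.Basic

/-!
# Random sets and the comparison with rates given by the Green function
-/

set_option autoImplicit false

namespace Q137.OC

open Finset Q289.OC

theorem wtStm : WtStm := by
  classical
  intro n q h0 h1
  refine ⟨fun S => ?_, fun T => ?_⟩
  · exact mul_nonneg (Finset.prod_nonneg fun x _ => h0 x)
      (Finset.prod_nonneg fun x _ => sub_nonneg.2 (h1 x))
  · have e1 : ∏ x, (q x + if x ∈ T then 0 else 1 - q x) = ∏ x ∈ T, q x := by
      rw [← Finset.prod_filter_mul_prod_filter_not univ (fun x => x ∈ T)]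
      have q1 : univ.filter (fun x => x ∈ T) = T := by ext i; simp
      have q2 : ∏ x ∈ univ.filter (fun x => ¬ x ∈ T), (q x + if x ∈ T then 0 else 1 - q x) = 1 := by
        refine Finset.prod_eq_one fun x hx => ?_
        simp only [Finset.mem_filter, Finset.mem_univ, true_and] at hx
        rw [if_neg hx]; ring
      rw [q2, mul_one, q1]
      refine Finset.prod_congr rfl fun x hx => ?_
      rw [if_pos hx, add_zero]
    rw [← e1, Finset.prod_add, Finset.sum_filter, Finset.powerset_univ]
    refine Finset.sum_congr rfl fun S _ => ?_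
    split_ifs with hT
    · rw [wt]
      congr 1
      rw [← Finset.compl_eq_univ_sdiff]
      refine Finset.prod_congr rfl fun x hx => ?_
      rw [if_neg fun hxT => Finset.mem_compl.1 hx (hT hxT)]
    · obtain ⟨x, hxT, hxS⟩ := Finset.not_subset.1 hT
      have : ∏ x ∈ univ \ S, (if x ∈ T then (0 : ℝ) else 1 - q x) = 0 :=
        Finset.prod_eq_zero (i := x) (by simp [hxS]) (by rw [if_pos hxT])
      rw [this, mul_zero]

theorem randStm (hT : TraceStm) (hw : WtStm) : RandStm := by
  classical
  intro n K G θ a hK hKG hGs hG0 hGp hθ ha haG W _ _ ρ hρ v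
  obtain ⟨q, hq⟩ : ∃ q : Fin n → ℝ, q = fun x => a * θ * G x x := ⟨_, rfl⟩
  have q0 : ∀ x, 0 ≤ q x := fun x => by
    rw [hq]; exact mul_nonneg (mul_nonneg ha.le hθ.le) (hG0 x x)
  have q1 : ∀ x, q x ≤ 1 := fun x => by rw [hq]; exact haG x
  obtain ⟨w0, hws⟩ := hw n q q0 q1
  choose r r0 rl rd using fun S => hT n K G hK hKG hGs hG0 hGp S
  have hD := fun x y => hρ.DD_nonneg v x y
  -- the averaged rates
  obtain ⟨P, hP⟩ : ∃ P : Fin n → Fin n → ℝ, P = fun x y =>
    ∑ S ∈ univ.filter (fun S : Finset (Fin n) => x ∈ S ∧ y ∈ S), wt q S * r S x y := ⟨_, rfl⟩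
  have hP0 : ∀ x y, 0 ≤ P x y := fun x y => by
    rw [hP]; exact Finset.sum_nonneg fun S _ => mul_nonneg (w0 S) (r0 S x y)
  have htot : ∑ S : Finset (Fin n), wt q S = 1 := by
    have := hws ∅
    simpa using this
  have hmain : ∑ x, ∑ y, P x y * DD ρ v x y ≤ ∑ x, ∑ y, -K x y * DD ρ v x y := by
    have e1 : ∑ x, ∑ y, P x y * DD ρ v x y =
        ∑ S : Finset (Fin n), wt q S * ∑ x ∈ S, ∑ y ∈ S, r S x y * DD ρ v x y := by
      have e2 : ∀ x y, P x y * DD ρ v x y = ∑ S : Finset (Fin n),
          (if x ∈ S ∧ y ∈ S then wt q S * (r S x y * DD ρ v x y) else 0) := by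
        intro x y
        rw [hP]
        dsimp only
        rw [Finset.sum_mul, Finset.sum_filter]
        refine Finset.sum_congr rfl fun S _ => ?_
        split_ifs
        · ring
        · rfl
      have e3 : ∀ S : Finset (Fin n), wt q S * ∑ x ∈ S, ∑ y ∈ S, r S x y * DD ρ v x y =
          ∑ x, ∑ y, (if x ∈ S ∧ y ∈ S then wt q S * (r S x y * DD ρ v x y) else 0) := by
        intro S
        have f1 : ∀ x, ∑ y, (if x ∈ S ∧ y ∈ S then wt q S * (r S x y * DD ρ v x y) else 0) =
            if x ∈ S then wt q S * ∑ y ∈ S, r S x y * DD ρ v x y else 0 := by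
          intro x
          by_cases hx : x ∈ S
          · simp only [hx, true_and, if_true]
            rw [Finset.mul_sum, ← Finset.sum_filter]
            congr 1
            ext i; simp
          · simp only [hx, false_and, if_false, Finset.sum_const_zero]
        simp only [f1]
        rw [Finset.mul_sum, ← Finset.sum_filter]
        congr 1
        ext i; simp
      simp only [e2, e3]
      calc ∑ x, ∑ y, ∑ S : Finset (Fin n),
            (if x ∈ S ∧ y ∈ S then wt q S * (r S x y * DD ρ v x y) else 0)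
          = ∑ x, ∑ S : Finset (Fin n), ∑ y,
            (if x ∈ S ∧ y ∈ S then wt q S * (r S x y * DD ρ v x y) else 0) :=
            Finset.sum_congr rfl fun x _ => Finset.sum_comm
        _ = _ := Finset.sum_comm
    rw [e1]
    calc ∑ S : Finset (Fin n), wt q S * ∑ x ∈ S, ∑ y ∈ S, r S x y * DD ρ v x y
        ≤ ∑ S : Finset (Fin n), wt q S * ∑ x, ∑ y, -K x y * DD ρ v x y :=
          Finset.sum_le_sum fun S _ => mul_le_mul_of_nonneg_left (rd S W ρ hρ v) (w0 S)
      _ = ∑ x, ∑ y, -K x y * DD ρ v x y := by rw [← Finset.sum_mul, htot, one_mul]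
  refine le_trans (Finset.sum_le_sum fun x _ => Finset.sum_le_sum fun y _ => ?_) hmain
  by_cases hxy : x = y
  · rw [hxy, DD_self, mul_zero, mul_zero]
  refine mul_le_mul_of_nonneg_right ?_ (hD x y)
  rcases le_total (G x y - a * θ * ∑ z, G x z * G z y) 0 with hneg | hpos
  · rw [max_eq_left hneg, mul_zero]
    exact hP0 x y
  rw [max_eq_right hpos]
  have hGx := hGp x
  have hGy := hGp y
  -- probabilities
  have p2 : ∑ S ∈ univ.filter (fun S : Finset (Fin n) => x ∈ S ∧ y ∈ S), wt q S = q x * q y := by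
    have h := hws {x, y}
    rw [Finset.prod_pair hxy] at h
    rw [← h]
    congr 1
    ext S
    simp [Finset.insert_subset_iff]
  have p3 : ∀ z, z ≠ x → z ≠ y →
      ∑ S ∈ univ.filter (fun S : Finset (Fin n) => x ∈ S ∧ y ∈ S ∧ z ∈ S), wt q S =
        q x * q y * q z := by
    intro z hzx hzy
    have h := hws {x, y, z}
    rw [Finset.prod_insert (by simp [hxy, hzx.symm]), Finset.prod_pair hzy.symm] at h
    rw [mul_assoc, ← h]
    congr 1
    ext S
    simp [Finset.insert_subset_iff]
  have hlow : (1 / (G x x * G y y)) * (q x * q y * G x y -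
      ∑ z ∈ (univ.erase x).erase y, q x * q y * q z * (G x z * G z y / G z z)) ≤ P x y := by
    have s1 : ∑ S ∈ univ.filter (fun S : Finset (Fin n) => x ∈ S ∧ y ∈ S),
        wt q S * ((G x y - ∑ z ∈ (S.erase x).erase y, G x z * G z y / G z z) /
          (G x x * G y y)) ≤ P x y := by
      rw [hP]
      refine Finset.sum_le_sum fun S hS => ?_
      simp only [Finset.mem_filter, Finset.mem_univ, true_and] at hS
      exact mul_le_mul_of_nonneg_left (rl S x hS.1 y hS.2 hxy) (w0 S)
    refine le_trans (le_of_eq ?_) s1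
    have s2 : ∀ S : Finset (Fin n), wt q S * ((G x y - ∑ z ∈ (S.erase x).erase y,
        G x z * G z y / G z z) / (G x x * G y y)) = (1 / (G x x * G y y)) *
        (wt q S * G x y - ∑ z ∈ (S.erase x).erase y, wt q S * (G x z * G z y / G z z)) := by
      intro S
      rw [← Finset.mul_sum]
      ring
    simp only [s2]
    rw [← Finset.mul_sum, Finset.sum_sub_distrib, ← Finset.sum_mul, p2]
    congr 2
    -- exchange
    have s3 : ∀ S ∈ univ.filter (fun S : Finset (Fin n) => x ∈ S ∧ y ∈ S),
        ∑ z ∈ (S.erase x).erase y, wt q S * (G x z * G z y / G z z) =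
        ∑ z ∈ (univ.erase x).erase y,
          (if z ∈ S then wt q S * (G x z * G z y / G z z) else 0) := by
      intro S _
      rw [← Finset.sum_filter]
      congr 1
      ext z
      simp only [Finset.mem_erase, Finset.mem_filter, Finset.mem_univ, and_true]
      tauto
    rw [Finset.sum_congr rfl s3, Finset.sum_comm]
    refine Finset.sum_congr rfl fun z hz => ?_
    have hzy : z ≠ y := Finset.ne_of_mem_erase hz
    have hzx : z ≠ x := Finset.ne_of_mem_erase (Finset.mem_of_mem_erase hz)
    rw [← Finset.sum_filter, Finset.filter_filter, ← Finset.sum_mul, ← p3 z hzx hzy]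
    congr 2
    ext S
    simp only [Finset.mem_filter, Finset.mem_univ, true_and, and_assoc]
  refine le_trans ?_ hlow
  have t1 : ∑ z ∈ (univ.erase x).erase y, q x * q y * q z * (G x z * G z y / G z z) =
      q x * q y * (a * θ) * ∑ z ∈ (univ.erase x).erase y, G x z * G z y := by
    rw [Finset.mul_sum]
    refine Finset.sum_congr rfl fun z _ => ?_
    have hGz := (hGp z).ne'
    rw [hq]
    dsimp only
    field_simp
  have t2 : ∑ z ∈ (univ.erase x).erase y, G x z * G z y ≤ ∑ z, G x z * G z y :=
    Finset.sum_le_sum_of_subset_of_nonneg (Finset.subset_univ _) fun z _ _ =>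
      mul_nonneg (hG0 x z) (hG0 z y)
  rw [t1]
  have t3 : 1 / (G x x * G y y) * (q x * q y * G x y - q x * q y * (a * θ) *
      ∑ z ∈ (univ.erase x).erase y, G x z * G z y) =
      a ^ 2 * θ ^ 2 * (G x y - a * θ * ∑ z ∈ (univ.erase x).erase y, G x z * G z y) := by
    rw [hq]
    dsimp only
    field_simp
  rw [t3]
  have t4 : a * θ * ∑ z ∈ (univ.erase x).erase y, G x z * G z y ≤ a * θ * ∑ z, G x z * G z y :=
    mul_le_mul_of_nonneg_left t2 (mul_pos ha hθ).le
  exact mul_le_mul_of_nonneg_left (by linarith) (by positivity)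

end Q137.OC
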