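import Pool.Agent.Q289.OC.Basic

/-!
# The rates of the trace process
-/

set_option autoImplicit false

namespace Q137.OC

open Finset Q289.OC

theorem traceStm (hE : ElimStm) : TraceStm := by
  classical
  intro n K G hK hKG hGs hG0 hGp S
  obtain ⟨R, hRs, hRo, hRr, hRi, hRd⟩ := hE n K G hK hKG S
  obtain ⟨r, hr⟩ : ∃ r : Fin n → Fin n → ℝ, r = fun x y =>
    if x ∈ S ∧ y ∈ S ∧ x ≠ y then -R x y else 0 := ⟨_, rfl⟩
  have r1 : ∀ x ∈ S, ∀ y ∈ S, x ≠ y → r x y = -R x y := by
    intro x hx y hy hxy
    rw [hr]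
    simp only [if_pos (And.intro hx (And.intro hy hxy))]
  have r0 : ∀ x y, 0 ≤ r x y := by
    intro x y
    by_cases h : x ∈ S ∧ y ∈ S ∧ x ≠ y
    · rw [r1 x h.1 y h.2.1 h.2.2]
      linarith [hRo x h.1 y h.2.1 h.2.2]
    · rw [hr]
      simp only [if_neg h]
      exact le_rfl
  refine ⟨r, r0, ?_, ?_⟩
  · intro x hx y hy hxy
    -- the equations
    have q : ∀ w ∈ S, R x x * G x w = (if x = w then 1 else 0) + ∑ z ∈ S.erase x, r x z * G z w := by
      intro w hw
      have h1 := hRi x hx w hw
      rw [← Finset.add_sum_erase S _ hx] at h1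
      have h2 : ∑ z ∈ S.erase x, R x z * G z w = -∑ z ∈ S.erase x, r x z * G z w := by
        rw [← Finset.sum_neg_distrib]
        refine Finset.sum_congr rfl fun z hz => ?_
        rw [r1 x hx z (Finset.mem_of_mem_erase hz) (Finset.ne_of_mem_erase hz).symm]
        ring
      rw [h2] at h1
      linarith
    have nn : ∀ w z, 0 ≤ r x z * G z w := fun w z => mul_nonneg (r0 x z) (hG0 z w)
    have hxx : 1 ≤ R x x * G x x := by
      rw [q x hx, if_pos rfl]
      have := Finset.sum_nonneg (s := S.erase x) (f := fun z => r x z * G z x) fun z _ => nn x z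
      linarith
    have hGx := hGp x
    have hGy := hGp y
    have hRx : 0 < R x x := by
      by_contra hn
      push Not at hn
      have := mul_nonpos_of_nonpos_of_nonneg hn hGx.le
      linarith
    have hb : ∀ z ∈ S, z ≠ x → r x z ≤ R x x * G x z / G z z := by
      intro z hz hzx
      rw [le_div_iff₀ (hGp z), q z hz, if_neg hzx.symm, zero_add]
      exact Finset.single_le_sum (f := fun w => r x w * G w z) (fun w _ => nn z w)
        (Finset.mem_erase.2 ⟨hzx, hz⟩)
    have h3 := q y hy
    rw [if_neg hxy, zero_add, ← Finset.add_sum_erase (S.erase x) _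
      (Finset.mem_erase.2 ⟨hxy.symm, hy⟩)] at h3
    have h4 : ∑ z ∈ (S.erase x).erase y, r x z * G z y ≤
        R x x * ∑ z ∈ (S.erase x).erase y, G x z * G z y / G z z := by
      rw [Finset.mul_sum]
      refine Finset.sum_le_sum fun z hz => ?_
      have hz1 := Finset.mem_of_mem_erase hz
      have h5 := hb z (Finset.mem_of_mem_erase hz1) (Finset.ne_of_mem_erase hz1)
      calc r x z * G z y ≤ R x x * G x z / G z z * G z y :=
            mul_le_mul_of_nonneg_right h5 (hG0 z y)
        _ = R x x * (G x z * G z y / G z z) := by ring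
    rw [div_le_iff₀ (mul_pos hGx hGy)]
    have h6 : R x x * (G x y - ∑ z ∈ (S.erase x).erase y, G x z * G z y / G z z) ≤
        r x y * G y y := by
      rw [mul_sub]
      linarith
    have h7 : r x y * G y y ≤ R x x * (r x y * (G x x * G y y)) := by
      calc r x y * G y y = 1 * (r x y * G y y) := by ring
        _ ≤ (R x x * G x x) * (r x y * G y y) :=
            mul_le_mul_of_nonneg_right hxx (mul_nonneg (r0 x y) hGy.le)
        _ = R x x * (r x y * (G x x * G y y)) := by ring
    exact le_of_mul_le_mul_left (h6.trans h7) hRx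
  · intro W _ _ ρ hρ v
    refine le_trans (le_of_eq ?_) (hRd W ρ hρ v)
    refine Finset.sum_congr rfl fun x hx => Finset.sum_congr rfl fun y hy => ?_
    by_cases hxy : x = y
    · rw [hxy, DD_self, mul_zero, mul_zero]
    · rw [r1 x hx y hy hxy]

end Q137.OC
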